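import Pool.Agent.H78.TakN

set_option autoImplicit false
open Pool.Agent.H78.Tak MeasureTheory

theorem Pool.Agent.Results.MP_f54a22_an.Positive.result (n : ℕ) (hn : 1 ≤ n) :
    ∃ A : Set ℝ, MeasurableSet A ∧ 0 < volume A ∧
      A ⊆ {y : ℝ | y ∈ Set.Icc (0 : ℝ) (2 / 3) ∧ (L y).Finite ∧ (L y).ncard = 2 * n} := by
  obtain ⟨A, h1, h2, h3⟩ := pos_main n hn
  exact ⟨A, h1, h2, h3⟩
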